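import Pool.Agent.H.MP_83ab87_co.B

namespace Pool.Agent.Results.MP_83ab87_co.NotDense

open Pool.Agent.H.MP_83ab87_co

theorem result (c : ℕ) : ∃ G : Gr, ∀ H : Gr, Finite H.V →
    (c : ℝ) ≤ Pool.Agent.H.MP_83ab87_co.dist G H := by
  refine ⟨ShG (2 * c + 4), fun H hH => ?_⟩
  have a := le_dist (ShG (2 * c + 4)) H Fup_mem
  have b := le_dist (ShG (2 * c + 4)) H Flow_mem
  have e : Flow H.G = Fup H.G := Flow_fin H.G
  have f1 : ((2 * c + 4 : ℕ) : ℝ) ≤ Fup (ShG (2 * c + 4)).G := Fup_Sh _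
  have f2 : Flow (ShG (2 * c + 4)).G ≤ 4 := Flow_Sh _
  simp only [e] at a b
  push_cast at f1
  have a' := le_abs_self (Fup (ShG (2 * c + 4)).G - Fup H.G)
  have b' := neg_abs_le (Flow (ShG (2 * c + 4)).G - Fup H.G)
  linarith

end Pool.Agent.Results.MP_83ab87_co.NotDense
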